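import Pool.Agent.V7H35.GapCount
import Pool.Agent.N375.AV.D
import Pool.Agent.N375.AV.Ex

/-!
# Prime gaps smaller than `√p + 1` after ALL primes near the values of additive functions

For a prime `p` let `p⁺` be the next prime; the question is whether `p⁺ - p < √p + 1` for all `p ≥ 127`.

Let `F = f_1 ∘ ⋯ ∘ f_k` be a composition of functions dominated by the largest prime factor, for example of additive
functions such as `∑_{p | m} p`, of the largest prime factor, of the least `j` with `m | j!`. Let `G` have steps bounded below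
by a positive constant and growth at most `v ^ d`, and `κ ≥ 0`, `0.306 d + κ < 1` (for instance `G(v) = v`, `κ < 0.694`). There
is an absolute constant `δ > 0` such that for all `m ≤ N` but `K N exp (- b (log N)^(1 / (k + 1)))` EVERY prime `p` with
`|p - G(F m)| ≤ F(m) ^ κ` satisfies `p⁺ - p ≤ p ^ (1/2 - δ)`, and so `p⁺ - p < √p + 1`. In particular this holds for the
largest prime factor `p` of `m`, and for all the primes in `[p - p^0.69, p + p^0.69]`, for all these `m`.

The values of `F` are taken with very large multiplicities and `F(m)` is in general much smaller than `m`; and so this does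
not follow from the number of the exceptional primes. The input is a starting theorem on the number of short intervals with
few primes (`Pool.Agent.Q278.KT.mainp_half`, helper240 and others), the tool is `Pool.Agent.N375.AV`.
-/

set_option autoImplicit false

namespace Pool.Agent.Results.MP_9ecf5f_nt.AdditiveValuesH35

open Pool.Agent.V7H35.GapCount (next Good count)
open Pool.Agent.N733.TG (Expanding expanding_pow)
open Pool.Agent.N375.AV (PD comp good pd_additive pd_largest pd_kempner)

/-- **Small gaps after all primes near the values of additive functions.** (1) There is `0 < δ ≤ 1 / 4` such that for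
functions `f_i` dominated by the largest prime factor (`PD`), `F = f_1 ∘ ⋯ ∘ f_k` (`comp fs`), `G` with steps `≥ const > 0` and
growth at most `v ^ d`, and `κ ≥ 0` with `0.306 d + κ < 1`, for all `m ≤ N` but `K N exp (- b (log N)^(1 / (k + 1)))`, EVERY
prime `p` with `|p - G (F m)| ≤ F(m) ^ κ` satisfies `Good δ p`, that is `p⁺ - p ≤ p ^ (1 / 2 - δ)` and `p⁺ - p < √p + 1`.
(2) - (4) Examples of functions `f_i` and `G`. -/
theorem result :
    (∃ δ : ℝ, 0 < δ ∧ δ ≤ 1 / 4 ∧
      ∀ fs : List (ℕ → ℕ), (∀ f ∈ fs, PD f) → ∀ (G : ℕ → ℝ) (d : ℝ), Expanding G d → ∀ κ : ℝ, 0 ≤ κ →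
        d * 0.306 + κ < 1 → ∃ b K : ℝ, 0 < b ∧ ∀ N : ℕ, 1 ≤ N →
          ({m : ℕ | 1 ≤ m ∧ m ≤ N ∧ ¬ ∀ p : ℕ, p.Prime → |(p : ℝ) - G (comp fs m)| ≤ (comp fs m : ℝ) ^ κ →
            Good δ p}.ncard : ℝ) ≤
          K * N * Real.exp (-(b * Real.log N ^ ((1 : ℝ) / (fs.length + 1))))) ∧
    (∀ f : ℕ → ℕ, (∀ a b : ℕ, Nat.Coprime a b → f (a * b) = f a + f b) →
      (∃ C : ℕ, ∀ q j : ℕ, q.Prime → 1 ≤ j → f (q ^ j) ≤ C * q ^ j) →
      (∃ P : ℕ, ∀ p q : ℕ, p.Prime → q.Prime → P ≤ p → P ≤ q → f p = f q → p = q) → PD f) ∧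
    (PD (fun n => n.primeFactors.sup id) ∧ PD (fun n => sInf {k : ℕ | n ∣ k.factorial})) ∧
    ∀ A d : ℝ, 0 < A → 1 ≤ d → Expanding (fun v => A * (v : ℝ) ^ d) d := by
  refine ⟨?_, fun f a1 a2 a3 => pd_additive a1 a2 a3, ⟨pd_largest, pd_kempner⟩, fun a d ha hd => expanding_pow ha hd⟩
  obtain ⟨δ, hδ, hδ1, hS⟩ := count
  refine ⟨δ, hδ, hδ1, fun fs hfs G d hG κ hκ h1 => ?_⟩
  exact good (fun n : ℕ => n.Prime) (fun n => Good δ n) (fun n : ℕ => (n : ℝ)) fs hfs hG (s := 0.306) (κ := κ)
    (by norm_num) hκ h1 hS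

end Pool.Agent.Results.MP_9ecf5f_nt.AdditiveValuesH35
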