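import Pool.Agent.V7H35.GapCount
import Pool.Agent.R482.ST.Star

/-!
# Prime gaps smaller than `√p + 1` after ALL primes near powers, orbits and other thin sequences

For a prime `p` let `p⁺` be the next prime; the question is whether `p⁺ - p < √p + 1` for all `p ≥ 127`.

Let `f_k`, `k = 0, 1, 2, …`, be positive functions on `(b, ∞)`, `b ≥ 0`, such that `f_k(t) / t` is nondecreasing, and such
that the sequence `f_k(t)` has exponent of convergence at most `τ` for each `t > b`: for instance `f_k(t) = t ^ (v_k)` for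
exponents `v_k ≥ 1` (`τ = 0`; all powers, the powers `t ^ (3 ^ k)` of Mills, …), the orbits `f_k(t) = g (g (⋯ g (t)))` of any
map `g` with `g(t) > t` and `g(t) / t` nondecreasing (`τ = 0`; for instance `t² + c`), and `f_k(t) = v_k t`. Let `θ < 1`.

There is an absolute constant `δ > 0` such that for all `α > b` outside a set of Hausdorff dimension at most
`(0.306 + τ) / (1 - θ)`, for all but finitely many `k`, EVERY prime `p` with `|p - f_k(α)| ≤ C f_k(α) ^ θ` satisfies
`p⁺ - p ≤ p ^ (1/2 - δ)`, and so `p⁺ - p < √p + 1`. For powers and orbits and `θ < 0.694` this holds for almost all `α`: for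
almost every `α > 1`, for all large `k` and all primes in `[α ^ k - α ^ (0.69 k), α ^ k + α ^ (0.69 k)]` (the number of these
primes is of the expected order, since they are in an interval of length larger than `x ^ 0.525`).

The input is a starting theorem on the number of short intervals with few primes (`Pool.Agent.Q278.KT.mainp_half`, helper240
and others): at most `C X ^ 0.306` primes `p ≤ X` do not have this property. The sequences are very thin, and so this number
alone does not give the result. The tool is `Pool.Agent.R482.ST` (helper482).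
-/

set_option autoImplicit false

namespace Pool.Agent.Results.MP_9ecf5f_nt.StarshapedSequencesH35

open Pool.Agent.V7H35.GapCount (next Good count)

/-- the functions `f n` are positive on `(b, ∞)`, `b ≥ 0`, and `f n x / x` is nondecreasing there -/
def Starshaped (b : ℝ) (f : ℕ → ℝ → ℝ) : Prop :=
  0 ≤ b ∧ ∀ n : ℕ, ∀ x y : ℝ, b < x → x ≤ y → 0 < f n x ∧ f n x / x ≤ f n y / y

/-- for each `x > b` the exponent of convergence of the sequence `f n x` is at most `τ` -/
def ExpLe (b : ℝ) (f : ℕ → ℝ → ℝ) (τ : ℝ) : Prop :=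
  ∀ x : ℝ, b < x → ∀ t : ℝ, τ < t → Summable (fun n : ℕ => (f n x) ^ (-t))

/-- **Small gaps after all primes near powers, orbits and other sequences.** There is `0 < δ ≤ 1 / 4` such that for all
starshaped sequences `f` on `(b, ∞)` of exponent of convergence at most `τ ≥ 0` and all `θ < 1`: (1) there is a set `E` of
Hausdorff dimension at most `(0.306 + τ) / (1 - θ)` such that for all `α > b` outside `E` and all `C`, for all but finitely many
`k`, EVERY prime `p` with `|p - f_k(α)| ≤ C f_k(α) ^ θ` satisfies `Good δ p`, that is `p⁺ - p ≤ p ^ (1 / 2 - δ)` and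
`p⁺ - p < √p + 1`. (2) - (4) The functions `v_n x`, `v_n > 0`, are starshaped on `(0, ∞)`, of exponent `τ` if `v` has
exponent of convergence at most `τ`; the functions `x ^ (v_n)`, `v_n ≥ 1`, are starshaped on `(1, ∞)`, of exponent `0` if the
sums of `exp (-t v_n)` converge for `t > 0`; and the iterates of a map `g` with `g(x) > x` for `x > b` and `g(x) / x`
nondecreasing are starshaped on `(b, ∞)`, of exponent `0`. -/
theorem result :
    (∃ δ : ℝ, 0 < δ ∧ δ ≤ 1 / 4 ∧ ∀ (b : ℝ) (f : ℕ → ℝ → ℝ) (τ θ : ℝ), Starshaped b f → 0 ≤ τ → ExpLe b f τ →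
      θ < 1 → ∃ E : Set ℝ, dimH E ≤ ENNReal.ofReal ((0.306 + τ) / (1 - θ)) ∧ ∀ α : ℝ, b < α → α ∉ E → ∀ C : ℝ,
        ∃ k₀ : ℕ, ∀ k : ℕ, k₀ ≤ k → ∀ p : ℕ, p.Prime → |(p : ℝ) - f k α| ≤ C * (f k α) ^ θ → Good δ p) ∧
    (∀ (v : ℕ → ℝ) (τ : ℝ), (∀ n, 0 < v n) → (∀ t : ℝ, τ < t → Summable (fun n : ℕ => (v n) ^ (-t))) →
      Starshaped 0 (fun n x => v n * x) ∧ ExpLe 0 (fun n x => v n * x) τ) ∧
    (∀ v : ℕ → ℝ, (∀ n, 1 ≤ v n) → (∀ t : ℝ, 0 < t → Summable fun n : ℕ => Real.exp (-(t * v n))) →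
      Starshaped 1 (fun n x => x ^ (v n)) ∧ ExpLe 1 (fun n x => x ^ (v n)) 0) ∧
    (∀ (b : ℝ) (g : ℝ → ℝ), 0 ≤ b → (∀ x y : ℝ, b < x → x ≤ y → g x / x ≤ g y / y) → (∀ x : ℝ, b < x → x < g x) →
      Starshaped b (fun n x => g^[n] x) ∧ ExpLe b (fun n x => g^[n] x) 0) := by
  refine ⟨?_, Pool.Agent.R482.ST.ex_mul, Pool.Agent.R482.ST.ex_pow, Pool.Agent.R482.ST.ex_orbit⟩
  obtain ⟨δ, hδ, hδ1, hS⟩ := count
  refine ⟨δ, hδ, hδ1, fun b f τ θ hf hτ hE hθ1 => ?_⟩
  obtain ⟨E, h1, h2⟩ := Pool.Agent.R482.ST.windows {n : ℕ | n.Prime ∧ ¬ Good δ n} (fun n : ℕ => (n : ℝ)) hf hτ hE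
    (s := 0.306) (by norm_num) hθ1 hS
  refine ⟨E, h1, fun α hα hαE C => ?_⟩
  obtain ⟨k₀, hk⟩ := h2 α hα hαE C
  refine ⟨k₀, fun k hk1 n hn h3 => ?_⟩
  by_contra hcon
  exact absurd h3 (not_le.2 (hk k hk1 n ⟨hn, hcon⟩))

end Pool.Agent.Results.MP_9ecf5f_nt.StarshapedSequencesH35
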