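import Pool.Agent.V7H35.GapCount
import Pool.Agent.N760.IT.D

/-!
# Prime gaps smaller than `√p + 1` after ALL primes near the members of almost all orbits of Euler's function

For a prime `p` let `p⁺` be the next prime; the question is whether `p⁺ - p < √p + 1` for all `p ≥ 127`.

Let `φ_k` be the `k`-th iterate of Euler's function, `φ_0(m) = m`, let `f` be a positive multiplicative function of at most
polynomial growth with `f(p) ≤ M p` at the large primes `p` and injective there, for example the identity, Euler's function or
the sum of the divisors, let `G` have steps bounded below by a positive constant and growth at most `v ^ d`, for example `v` or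
`A v ^ d`, and `κ ≥ 0`, `0.306 d + κ < 1` (for instance `d = 1`, `κ < 0.694`, or `d = 3`, `κ < 0.08`). There are an absolute
constant `δ > 0` and `K(m)` tending to infinity such that for almost all `m`, for all `k ≤ K(m)` and `v = f(φ_k(m))`, EVERY
prime `p` with `|p - G(v)| ≤ v ^ κ` satisfies `p⁺ - p ≤ p ^ (1/2 - δ)`, and so `p⁺ - p < √p + 1`. For `G(v) = v` and
`κ = 0.69` there are many such primes.

The values `f(φ_k(m))` are in general taken with very large multiplicities, and so this does not follow from the number of the
exceptional primes. The input is a starting theorem on the number of short intervals with few primes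
(`Pool.Agent.Q278.KT.mainp_half`, helper240 and others), the tool is `Pool.Agent.N760.IT`.
-/

set_option autoImplicit false

namespace Pool.Agent.Results.MP_9ecf5f_nt.TotientOrbitsH35

open Filter
open Pool.Agent.V7H35.GapCount (next Good count)
open Pool.Agent.N733.TG (LM Expanding lm_totient lm_sigma expanding_pow)
open Pool.Agent.N760.IT (orb lm_id orbit_good)
open Pool.Agent.N826.IT.Orb (AlmostAll)

/-- **Small gaps after all primes near the orbits of Euler's function.** (1) There is `0 < δ ≤ 1 / 4` such that for
multiplicative positive `f` of at most polynomial growth, with `f p ≤ M p` at the large primes, and injective there (`LM f`),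
for `G` with steps `≥ const > 0` and growth at most `v ^ d`, and `κ ≥ 0` with `0.306 d + κ < 1`, there is `K(m)` tending to
infinity such that for almost all `m`, for all `k ≤ K(m)`, with `v = f(φ_k(m))` (`orb f k m`), EVERY prime `p` with
`|p - G v| ≤ v ^ κ` satisfies `Good δ p`, that is `p⁺ - p ≤ p ^ (1 / 2 - δ)` and `p⁺ - p < √p + 1`. (2), (3) The identity,
Euler's function and the sum of the divisors are examples of such functions `f`, and `A v ^ d` with `A > 0`, `d ≥ 1` is an
example of `G`. -/
theorem result :
    (∃ δ : ℝ, 0 < δ ∧ δ ≤ 1 / 4 ∧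
      ∀ f : ℕ → ℕ, LM f → ∀ (G : ℕ → ℝ) (d : ℝ), Expanding G d → ∀ κ : ℝ, 0 ≤ κ → d * 0.306 + κ < 1 →
        ∃ K : ℕ → ℕ, Tendsto K atTop atTop ∧
          AlmostAll (fun m => ∀ k ≤ K m, ∀ p : ℕ, p.Prime → |(p : ℝ) - G (orb f k m)| ≤ (orb f k m : ℝ) ^ κ →
            Good δ p)) ∧
    (LM (fun m => m) ∧ LM Nat.totient ∧ LM (fun m => ∑ d ∈ m.divisors, d)) ∧
    ∀ A d : ℝ, 0 < A → 1 ≤ d → Expanding (fun v => A * (v : ℝ) ^ d) d := by
  refine ⟨?_, ⟨lm_id, lm_totient, lm_sigma⟩, fun a d ha hd => expanding_pow ha hd⟩
  obtain ⟨δ, hδ, hδ1, hS⟩ := count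
  refine ⟨δ, hδ, hδ1, fun f hf G d hG κ hκ h1 => ?_⟩
  exact orbit_good (fun n : ℕ => n.Prime) (fun n => Good δ n) (fun n : ℕ => (n : ℝ)) hf hG (s := 0.306) (κ := κ)
    (by norm_num) hκ h1 hS

end Pool.Agent.Results.MP_9ecf5f_nt.TotientOrbitsH35
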